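import Pool.Agent.H92.EHD.TP

/-!
# Norms which are not divisible by the first variable
-/

set_option autoImplicit false

open MeasureTheory Pool.Agent.H92.EQ Pool.Agent.H92.EHD

namespace Pool.Agent.H67.EHD

theorem dvd_of_dvd_prime_mul {R : Type} [CommRing R] [IsDomain R] {p h b : R} (hp : Prime p)
    (hh : ¬ p ∣ h) (hd : h ∣ p * b) : h ∣ b := by
  obtain ⟨c, hc⟩ := hd
  have h1 : p ∣ h * c := ⟨b, hc.symm⟩
  obtain ⟨c', rfl⟩ := (hp.dvd_or_dvd h1).resolve_left hh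
  refine ⟨c', mul_left_cancel₀ hp.ne_zero ?_⟩
  rw [hc]
  ring

theorem dvd_of_dvd_pow_mul {R : Type} [CommRing R] [IsDomain R] {p h b : R} (hp : Prime p)
    (hh : ¬ p ∣ h) (D : ℕ) (hd : h ∣ p ^ D * b) : h ∣ b := by
  induction D with
  | zero => rwa [pow_zero, one_mul] at hd
  | succ D ih =>
    rw [pow_succ', mul_assoc] at hd
    exact ih (dvd_of_dvd_prime_mul hp hh hd)

theorem hom_of_X_mul {N : ℕ} (i : Fin N) {g : MvPolynomial (Fin N) ℂ} {n : ℕ}
    (h : (MvPolynomial.X i * g).IsHomogeneous (n + 1)) : g.IsHomogeneous n := by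
  intro d hd
  have h1 : MvPolynomial.coeff (Finsupp.single i 1 + d) (MvPolynomial.X i * g) ≠ 0 := by
    rwa [MvPolynomial.coeff_X_mul]
  have h2 := h h1
  rw [map_add, Finsupp.weight_single] at h2
  simp only [Pi.one_apply, smul_eq_mul, mul_one] at h2
  omega

theorem pos_of_X_mul {N : ℕ} (i : Fin N) {g : MvPolynomial (Fin N) ℂ} {n : ℕ} (hg : g ≠ 0)
    (h : (MvPolynomial.X i * g).IsHomogeneous n) : 1 ≤ n := by
  obtain ⟨d, hd⟩ := MvPolynomial.ne_zero_iff.1 hg
  have h1 : MvPolynomial.coeff (Finsupp.single i 1 + d) (MvPolynomial.X i * g) ≠ 0 := by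
    rwa [MvPolynomial.coeff_X_mul]
  have h2 := h h1
  rw [map_add, Finsupp.weight_single] at h2
  simp only [Pi.one_apply, smul_eq_mul, mul_one] at h2
  omega

theorem pf_EPM (hPNM : T_PNM) : T_EPM := by
  intro k D m Φ h hD hΦ hh hX
  have hX0 : Prime (MvPolynomial.X 0 : MvPolynomial (Fin (k + 1)) ℂ) := MvPolynomial.X_prime
  have hne : h ≠ 0 := by
    rintro rfl
    exact hX (dvd_zero _)
  obtain ⟨h1, m1, h10, h1m, hdvd⟩ := hPNM (k + 1) D m Φ h (Nat.succ_pos k) hD hΦ.isH hh hne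
  induction m1 using Nat.strong_induction_on generalizing h1 with
  | _ m1 ih =>
    by_cases hd : (MvPolynomial.X 0 : MvPolynomial (Fin (k + 1)) ℂ) ∣ h1
    · obtain ⟨g, rfl⟩ := hd
      have hg : g ≠ 0 := right_ne_zero_of_mul h10
      have h1' := pos_of_X_mul 0 hg h1m
      obtain ⟨n, rfl⟩ := Nat.exists_eq_add_of_le h1'
      have h1m' := h1m
      rw [Nat.add_comm 1 n] at h1m'
      have h3 := hom_of_X_mul 0 h1m'
      refine ih n (by omega) g hg h3 ?_
      rw [map_mul, MvPolynomial.bind₁_X_right, hΦ.zero] at hdvd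
      exact dvd_of_dvd_pow_mul hX0 hX D hdvd
    · exact ⟨h1, m1, h1m, hd, hdvd⟩

end Pool.Agent.H67.EHD
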